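import Pool.Agent.MWK.StmtsN

set_option autoImplicit false

namespace Pool.Agent.MWK.H94

open Pool.Agent.Helper14_MV Pool.Agent.Helper2_MV Pool.Agent.MWK
open Pool.Agent.MWF (Ap gaml)

theorem nty (pow : MWF.PowStmt) (ctt : MWF.CttStmt) (sim : MWF.SimStmt) : NtyStmt := by
  intro β hG x t hxt k w' hk h
  have gm := hG.gm
  have gm0 : RR β [0, 0, 1, 0] [0, 0, 1, 0, 0] := RR.append (RR.refl (β := β) [0]) gm
  have q : ∀ b, 1 ≤ b → RR β (0 :: 1 :: List.replicate b 0) [0, 1, 0] := by
    intro b hb
    rcases Nat.lt_or_ge b 2 with h1 | h1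
    · have : b = 1 := by omega
      subst this
      exact RR.refl _
    · have h2 : RR β ([0, 1] ++ List.replicate b 0) ([0, 1] ++ List.replicate 2 0) :=
        RR.append (RR.refl _) (pow β hG.ap.sq 0 b 2 h1 (le_refl 2))
      exact β.trans h2 (RR.symm gm)
  have K : ∀ a b, 2 ≤ a → 1 ≤ b →
      RR β (List.replicate a 0 ++ 1 :: List.replicate b 0) [0, 0, 1, 0, 0] := by
    intro a b ha hb
    have h1 : RR β (List.replicate a 0 ++ 1 :: List.replicate b 0)
        (List.replicate 2 0 ++ 1 :: List.replicate b 0) :=
      RR.append (pow β hG.ap.sq 0 a 2 ha (le_refl 2)) (RR.refl _)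
    have h2 : RR β ([0] ++ (0 :: 1 :: List.replicate b 0)) ([0] ++ [0, 1, 0]) :=
      RR.append (RR.refl _) (q b hb)
    exact β.trans h1 (β.trans h2 gm0)
  have hct := ctt β hG.ap _ _ h
  have hmem : ∀ c ∈ w', c = x ∨ c = t := by
    intro c hc
    have := (hct c).2 hc
    simp only [List.mem_cons, List.mem_replicate] at this
    tauto
  have hct1 : w'.count t = 1 := by
    refine sim β hG.ap _ _ h t ?_
    rw [List.count_cons_of_ne hxt, List.count_cons_self, List.count_replicate]
    simp [hxt]
  have hcx : w'.count x ≠ 1 := by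
    intro h1
    have := sim β hG.ap _ _ (RR.symm h) x h1
    rw [List.count_cons_self, List.count_cons_of_ne (Ne.symm hxt), List.count_replicate_self]
      at this
    omega
  have hcx0 : 0 < w'.count x := by
    rw [List.count_pos_iff, ← hct x]
    simp
  have htm : t ∈ w' := by
    rw [← List.count_pos_iff]
    omega
  obtain ⟨A, B, hAB⟩ := List.append_of_mem htm
  have hc2 : A.count t + (B.count t + 1) = 1 := by
    have h1 := hct1
    rw [hAB, List.count_append, List.count_cons_self] at h1
    exact h1
  have hA : A = List.replicate A.length x := by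
    rw [List.eq_replicate_iff]
    refine ⟨rfl, ?_⟩
    intro c hc
    rcases hmem c (by rw [hAB]; simp [hc]) with h1 | h1
    · exact h1
    · exfalso
      have : 0 < A.count t := List.count_pos_iff.2 (h1 ▸ hc)
      omega
  have hB : B = List.replicate B.length x := by
    rw [List.eq_replicate_iff]
    refine ⟨rfl, ?_⟩
    intro c hc
    rcases hmem c (by rw [hAB]; simp [hc]) with h1 | h1
    · exact h1
    · exfalso
      have : 0 < B.count t := List.count_pos_iff.2 (h1 ▸ hc)
      omega
  generalize A.length = a at hA
  generalize B.length = b at hB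
  subst hA hB
  have hab : w'.count x = a + b := by
    rw [hAB, List.count_append, List.count_cons_of_ne (Ne.symm hxt), List.count_replicate_self,
      List.count_replicate_self]
  have hR : RR β (0 :: 1 :: List.replicate k 0) (List.replicate a 0 ++ 1 :: List.replicate b 0) := by
    have h1 := RR.sub (fun c => if c = x then [0] else [1]) h
    rw [hAB] at h1
    have e1 : ∀ m : ℕ, (List.replicate m x).flatMap (fun c => if c = x then [0] else [1]) =
        List.replicate m 0 := by
      intro m
      induction m with
      | zero => rfl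
      | succ m ih =>
        rw [List.replicate_succ, List.flatMap_cons, ih, List.replicate_succ]
        simp
    simpa [List.flatMap_append, List.flatMap_cons, e1, hxt, Ne.symm hxt] using h1
  have H : RR β [0, 1, 0] (List.replicate a 0 ++ 1 :: List.replicate b 0) :=
    β.trans (RR.symm (q k hk)) hR
  by_cases ha : 2 ≤ a
  · exfalso
    by_cases hb : 1 ≤ b
    · exact hG.nb (β.trans H (K a b ha hb))
    · have hb0 : b = 0 := by omega
      subst hb0
      have h1 : RR β ([0, 1, 0] ++ [0]) ((List.replicate a 0 ++ 1 :: List.replicate 0 0) ++ [0]) :=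
        RR.append H (RR.refl _)
      have e2 : (List.replicate a 0 ++ 1 :: List.replicate 0 0) ++ [0] =
          List.replicate a 0 ++ 1 :: List.replicate 1 0 := by
        simp
      rw [e2] at h1
      exact hG.nb (β.trans gm (β.trans h1 (K a 1 ha (le_refl 1))))
  · by_cases ha0 : a = 0
    · exfalso
      subst ha0
      have hb : 1 ≤ b := by omega
      have h1 : RR β ([0] ++ [0, 1, 0]) ([0] ++ (List.replicate 0 0 ++ 1 :: List.replicate b 0)) :=
        RR.append (RR.refl _) H
      have h2 : RR β [0, 0, 1, 0] [0, 1, 0] := β.trans h1 (q b hb)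
      exact hG.nb (β.trans (RR.symm h2) gm0)
    · have ha1 : a = 1 := by omega
      subst ha1
      refine ⟨b, by omega, ?_⟩
      rw [hAB]
      rfl

end Pool.Agent.MWK.H94
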